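import Mathlib

/-!
1-nearly independent sets: definitions, and orderings of the vertices of a tree in which every
vertex other than the first one is adjacent to exactly one earlier vertex.
-/

namespace Pool.Agent.R838.NI

open Finset

/-- `S` is 1-nearly independent in `G`: the subgraph of `G` induced by `S` has exactly one edge. -/
def IsNear {V : Type*} (G : SimpleGraph V) (S : Finset V) : Prop :=
  (G.induce (S : Set V)).edgeSet.ncard = 1

open Classical in
/-- the number of 1-nearly independent sets of `G` -/
noncomputable def sigma1 {V : Type*} [Fintype V] (G : SimpleGraph V) : ℕ :=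
  (univ.filter (fun S : Finset V => IsNear G S)).card

open Classical in
/-- the sum of the cardinalities of the 1-nearly independent sets of `G` -/
noncomputable def S1 {V : Type*} [Fintype V] (G : SimpleGraph V) : ℕ :=
  ∑ S ∈ univ.filter (fun S : Finset V => IsNear G S), S.card

/-- the average cardinality of a 1-nearly independent set of `G` -/
noncomputable def av1 {V : Type*} [Fintype V] (G : SimpleGraph V) : ℚ :=
  (S1 G : ℚ) / (sigma1 G : ℚ)

/-- The tree `R_n` on `Fin n`: vertex `0` is the centre, it is joined to `1, ..., n - 2`, and the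
last vertex `n - 1` is joined to vertex `1`. -/
def R (n : ℕ) : SimpleGraph (Fin n) :=
  SimpleGraph.fromRel (fun i j : Fin n =>
    (i.val = 0 ∧ j.val + 1 < n) ∨ (i.val = 1 ∧ j.val + 1 = n))

/-- `v 0, ..., v (n-1)` is an enumeration of the vertices of `G`, `p j < j` for `0 < j < n`, and for
`i < j < n` the vertices `v i`, `v j` are adjacent exactly when `p j = i`. -/
structure TO {V : Type*} (G : SimpleGraph V) (n : ℕ) (v : ℕ → V) (p : ℕ → ℕ) : Prop where
  inj : ∀ i < n, ∀ j < n, v i = v j → i = j
  surj : ∀ x, ∃ i < n, v i = x
  lt : ∀ i < n, 0 < i → p i < i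
  adj : ∀ i j, i < j → j < n → (G.Adj (v i) (v j) ↔ p j = i)

theorem exists_TO (n : ℕ) : ∀ (V : Type) [Fintype V] (G : SimpleGraph V), G.IsTree →
    Fintype.card V = n + 1 → ∃ v p, TO G (n + 1) v p := by
  induction n with
  | zero =>
    intro V _ G hG hc
    obtain ⟨x, hx⟩ := Fintype.card_eq_one_iff.1 hc
    refine ⟨fun _ => x, fun i => i, ⟨?_, ?_, ?_, ?_⟩⟩
    · intro i hi j hj _; omega
    · intro y; exact ⟨0, by omega, (hx y).symm⟩
    · intro i hi h0; omega
    · intro i j hij hj; omega
  | succ n ih =>
    intro V _ G hG hc
    classical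
    haveI : Nontrivial V := Fintype.one_lt_card_iff_nontrivial.1 (by omega)
    obtain ⟨x, hx⟩ := hG.exists_vert_degree_one_of_nontrivial
    obtain ⟨y, hy⟩ := Finset.card_eq_one.1 (show (G.neighborFinset x).card = 1 from hx)
    have hxy : ∀ z, G.Adj x z ↔ z = y := by
      intro z
      rw [← SimpleGraph.mem_neighborFinset, hy, Finset.mem_singleton]
    have hne : y ≠ x := fun h => (G.ne_of_adj ((hxy y).2 rfl)) h.symm
    have hT' : (G.induce ({x}ᶜ : Set V)).IsTree := by
      refine ⟨?_, hG.isAcyclic.induce _⟩
      exact hG.connected.induce_compl_singleton_of_degree_eq_one hx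
    have hc' : Fintype.card ({x}ᶜ : Set V) = n + 1 := by
      rw [Fintype.card_compl_set, hc]; simp
    obtain ⟨v, p, h⟩ := ih ({x}ᶜ : Set V) (G.induce ({x}ᶜ : Set V)) hT' hc'
    obtain ⟨k, hk, hvk⟩ := h.surj ⟨y, hne⟩
    refine ⟨fun i => if i < n + 1 then (v i : V) else x, fun j => if j < n + 1 then p j else k,
      ⟨?_, ?_, ?_, ?_⟩⟩
    · intro i hi j hj hij
      by_cases h1 : i < n + 1 <;> by_cases h2 : j < n + 1
      · simp only [h1, h2, if_true] at hij
        exact h.inj i h1 j h2 (Subtype.ext hij)
      · simp only [h1, h2, if_true, if_false] at hij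
        exact absurd hij (v i).2
      · simp only [h1, h2, if_true, if_false] at hij
        exact absurd hij.symm (v j).2
      · omega
    · intro z
      by_cases hz : z = x
      · exact ⟨n + 1, by omega, by simp [hz]⟩
      · obtain ⟨i, hi, hvi⟩ := h.surj ⟨z, hz⟩
        exact ⟨i, by omega, by simp [hi, hvi]⟩
    · intro i hi h0
      by_cases h1 : i < n + 1
      · simp only [h1, if_true]; exact h.lt i h1 h0
      · simp only [h1, if_false]; omega
    · intro i j hij hj
      by_cases h2 : j < n + 1
      · have h1 : i < n + 1 := by omega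
        simp only [h1, h2, if_true]
        have := h.adj i j hij h2
        rwa [SimpleGraph.comap_adj] at this
      · have h1 : i < n + 1 := by omega
        simp only [h1, h2, if_true, if_false]
        rw [SimpleGraph.adj_comm, hxy]
        constructor
        · intro hi
          refine (h.inj i h1 k hk (Subtype.ext ?_)).symm
          rw [hi, hvk]
        · intro hi
          subst hi
          rw [hvk]

end Pool.Agent.R838.NI
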