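import Pool.Agent.R838.NI.Poly

/-!
A kernel computation over all parent functions, and its meaning for trees.
-/

namespace Pool.Agent.R838.NI

open Finset

/-- multiplication by `y` -/
def D4.ymul (t : D4) : D4 := ⟨0, 0, t.a, t.b⟩

theorem D4.ymul_eq (t : D4) : t.ymul = D4.y * t := by
  ext <;> simp [D4.ymul, D4.y]

/-- merge the last vertex (weights `w`) into its neighbour (weights `v`) -/
def merge (w v : D4 × D4) : D4 × D4 := (v.1.mul (w.1.add w.2), v.2.mul (w.1.add w.2.ymul))

/-- `forallMods f K L`: `K` holds for all lists obtained from `L` by applying `f` to one entry -/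
def forallMods (f : D4 × D4 → D4 × D4) : (List (D4 × D4) → Bool) → List (D4 × D4) → Bool
  | _, [] => true
  | K, a :: t => (K (f a :: t)) && forallMods f (fun t' => K (a :: t')) t

/-- all parent functions; the list contains the weights, the last vertex first -/
def check (test : D4 → Bool) : ℕ → List (D4 × D4) → Bool
  | 0, L => match L with
    | [] => true
    | w :: _ => test (w.1.add w.2)
  | k + 1, L => match L with
    | [] => true
    | w :: rest => forallMods (merge w) (check test k) rest

theorem forallMods_true (f : D4 × D4 → D4 × D4) : ∀ (L : List (D4 × D4))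
    (K : List (D4 × D4) → Bool), forallMods f K L = true → ∀ i < L.length,
    K (L.modify i f) = true := by
  intro L
  induction L with
  | nil => intro K _ i hi; simp at hi
  | cons a t ih =>
    intro K h i hi
    rw [forallMods, Bool.and_eq_true] at h
    cases i with
    | zero => exact h.1
    | succ i =>
      have := ih _ h.2 i (by simpa using hi)
      exact this

/-- the weight of vertex `i` if the list contains the weights, the last vertex first -/
def wt (L : List (D4 × D4)) (i : ℕ) : D4 × D4 := L.getD (L.length - 1 - i) (0, 0)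

theorem wt_cons_lt (w : D4 × D4) (L : List (D4 × D4)) (i : ℕ) (hi : i < L.length) :
    wt (w :: L) i = wt L i := by
  unfold wt
  have h : (w :: L).length - 1 - i = (L.length - 1 - i) + 1 := by
    simp only [List.length_cons]; omega
  rw [h, List.getD_cons_succ]

theorem wt_cons_last (w : D4 × D4) (L : List (D4 × D4)) : wt (w :: L) L.length = w := by
  unfold wt
  have h : (w :: L).length - 1 - L.length = 0 := by
    simp only [List.length_cons]; omega
  rw [h, List.getD_cons_zero]

theorem wt_modify (f : D4 × D4 → D4 × D4) (L : List (D4 × D4)) (i k : ℕ) (hi : i < L.length)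
    (hk : k < L.length) : wt (L.modify (L.length - 1 - k) f) i = if i = k then f (wt L i)
      else wt L i := by
  unfold wt
  rw [List.length_modify]
  have h1 : L.length - 1 - i < L.length := by omega
  have h2 : L.length - 1 - i < (L.modify (L.length - 1 - k) f).length := by
    rw [List.length_modify]; exact h1
  rw [List.getD_eq_getElem _ _ h2, List.getD_eq_getElem _ _ h1, List.getElem_modify]
  by_cases h : i = k
  · subst h; simp
  · have : ¬ (L.length - 1 - k = L.length - 1 - i) := by omega
    simp [h, this]

theorem check_true (test : D4 → Bool) : ∀ (k : ℕ) (L : List (D4 × D4)), L.length = k + 1 →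
    check test k L = true → ∀ p : ℕ → ℕ, (∀ j ≤ k, 0 < j → p j < j) →
    test (P (k + 1) p D4.y (fun i => (wt L i).1) (fun i => (wt L i).2)) = true := by
  intro k
  induction k with
  | zero =>
    intro L hL h p hp
    obtain ⟨w, rfl⟩ := List.length_eq_one_iff.1 hL
    rw [P_one]
    exact h
  | succ k ih =>
    intro L hL h p hp
    obtain ⟨w, rest, rfl⟩ : ∃ w rest, L = w :: rest := by
      cases L with
      | nil => simp at hL
      | cons w rest => exact ⟨w, rest, rfl⟩
    have hr : rest.length = k + 1 := by simpa using hL
    have hpk : p (k + 1) < k + 1 := hp (k + 1) le_rfl (by omega)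
    have h1 := forallMods_true (merge w) rest (check test k) h (rest.length - 1 - p (k + 1))
      (by omega)
    have h2 := ih _ (by rw [List.length_modify]; exact hr) h1 p
      (fun j hj h0 => hp j (by omega) h0)
    rw [P_succ (k + 1) (by omega) p hp]
    convert h2 using 2
    refine P_congr _ _ _ _ _ _ _ _ (fun _ _ _ => rfl) ?_ ?_
    · intro i hi
      rw [wt_modify _ _ _ _ (by omega) (by omega)]
      by_cases hik : i = p (k + 1)
      · rw [if_pos hik, hik, Function.update_self, wt_cons_lt _ _ _ (by omega)]
        have := wt_cons_last w rest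
        rw [hr] at this
        rw [this]
        rfl
      · rw [if_neg hik, Function.update_of_ne hik, wt_cons_lt _ _ _ (by omega)]
    · intro i hi
      rw [wt_modify _ _ _ _ (by omega) (by omega)]
      by_cases hik : i = p (k + 1)
      · rw [if_pos hik, hik, Function.update_self, wt_cons_lt _ _ _ (by omega)]
        have := wt_cons_last w rest
        rw [hr] at this
        rw [this, ← D4.ymul_eq]
        rfl
      · rw [if_neg hik, Function.update_of_ne hik, wt_cons_lt _ _ _ (by omega)]

/-- the test `den * S1 ≤ num * sigma1` -/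
def test (num den : ℕ) (t : D4) : Bool := Nat.ble (Nat.mul den t.d) (Nat.mul num t.c)

theorem of_check (n num den : ℕ)
    (h : check (test num den) n (List.replicate (n + 1) (⟨1, 0, 0, 0⟩, ⟨1, 1, 0, 0⟩)) = true)
    (V : Type) [Fintype V] (G : SimpleGraph V) (hG : G.IsTree) (hc : Fintype.card V = n + 1) :
    den * S1 G ≤ num * sigma1 G := by
  obtain ⟨v, p, hv⟩ := exists_TO n V G hG hc
  have h1 := check_true _ n _ (by simp) h p (fun j hj h0 => hv.lt j (by omega) h0)
  rw [hv.S1_eq, hv.sigma1_eq]
  have h2 : P (n + 1) p D4.y
      (fun i => (wt (List.replicate (n + 1) (⟨1, 0, 0, 0⟩, ⟨1, 1, 0, 0⟩)) i).1)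
      (fun i => (wt (List.replicate (n + 1) (⟨1, 0, 0, 0⟩, ⟨1, 1, 0, 0⟩)) i).2)
      = P (n + 1) p D4.y (fun _ => 1) (fun _ => D4.x) := by
    have key : ∀ i < n + 1, wt (List.replicate (n + 1) (⟨1, 0, 0, 0⟩, ⟨1, 1, 0, 0⟩)) i
        = ((⟨1, 0, 0, 0⟩, ⟨1, 1, 0, 0⟩) : D4 × D4) := by
      intro i hi
      unfold wt
      rw [List.getD_eq_getElem _ _ (by rw [List.length_replicate]; omega), List.getElem_replicate]
    refine P_congr _ _ _ _ _ _ _ _ (fun _ _ _ => rfl) ?_ ?_
    · intro i hi; rw [key i hi]; rfl
    · intro i hi; rw [key i hi]; rfl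
  rw [h2] at h1
  unfold test at h1
  exact Nat.le_of_ble_eq_true h1

end Pool.Agent.R838.NI
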