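import Pool.Agent.R838.NI.Basic

/-!
The general upper bound `6 * S1 ≤ (3 n + 1) * sigma1` for trees in which no edge is extremal.
-/

namespace Pool.Agent.R838.NI

open Finset

section near

variable {V : Type*} [DecidableEq V] (G : SimpleGraph V)

/-- `S` contains the ends of the edge `uv` and spans no other edge -/
def NearAt (u v : V) (S : Finset V) : Prop :=
  u ∈ S ∧ v ∈ S ∧ ∀ x ∈ S, ∀ y ∈ S, G.Adj x y → s(x, y) = s(u, v)

theorem isNear_iff (S : Finset V) :
    IsNear G S ↔ ∃ e ∈ G.edgeSet, ∀ u v, e = s(u, v) → NearAt G u v S := by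
  unfold IsNear
  rw [Set.ncard_eq_one]
  constructor
  · rintro ⟨e, he⟩
    induction e using Sym2.ind with
    | _ a b =>
    obtain ⟨a, ha⟩ := a
    obtain ⟨b, hb⟩ := b
    have h1 : s((⟨a, ha⟩ : (S : Set V)), ⟨b, hb⟩) ∈ (G.induce (S : Set V)).edgeSet := by
      rw [he]; exact Set.mem_singleton _
    rw [SimpleGraph.mem_edgeSet, SimpleGraph.comap_adj] at h1
    have h1' : G.Adj a b := h1
    refine ⟨s(a, b), h1', ?_⟩
    have key : ∀ x ∈ S, ∀ y ∈ S, G.Adj x y → s(x, y) = s(a, b) := by
      intro x hx y hy hxy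
      have h2 : s((⟨x, mem_coe.2 hx⟩ : (S : Set V)), ⟨y, mem_coe.2 hy⟩) ∈
          (G.induce (S : Set V)).edgeSet := by
        rw [SimpleGraph.mem_edgeSet, SimpleGraph.comap_adj]; exact hxy
      rw [he, Set.mem_singleton_iff] at h2
      have h3 := congrArg (Sym2.map Subtype.val) h2
      simpa using h3
    intro u v huv
    rcases Sym2.eq_iff.1 huv with ⟨rfl, rfl⟩ | ⟨rfl, rfl⟩
    · exact ⟨ha, hb, key⟩
    · exact ⟨hb, ha, fun x hx y hy hxy => (key x hx y hy hxy).trans Sym2.eq_swap⟩
  · rintro ⟨e, he, h⟩
    induction e using Sym2.ind with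
    | _ a b =>
    obtain ⟨ha, hb, hS⟩ := h a b rfl
    refine ⟨s(⟨a, mem_coe.2 ha⟩, ⟨b, mem_coe.2 hb⟩), ?_⟩
    ext e'
    rw [Set.mem_singleton_iff]
    induction e' using Sym2.ind with
    | _ x y =>
    obtain ⟨x, hx⟩ := x
    obtain ⟨y, hy⟩ := y
    constructor
    · intro hxy
      rw [SimpleGraph.mem_edgeSet, SimpleGraph.comap_adj] at hxy
      have h3 := hS x hx y hy hxy
      rw [Sym2.eq_iff] at h3 ⊢
      simpa using h3
    · intro hxy
      rw [hxy, SimpleGraph.mem_edgeSet, SimpleGraph.comap_adj]
      exact he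

variable [Fintype V]

open Classical in
/-- the near-independent sets whose edge is `uv` -/
noncomputable def AA (u v : V) : Finset (Finset V) := univ.filter (fun S => NearAt G u v S)

theorem mem_AA {u v : V} {S : Finset V} : S ∈ AA G u v ↔ NearAt G u v S := by
  classical
  unfold AA
  simp

theorem AA_swap (u v : V) : AA G u v = AA G v u := by
  ext S
  rw [mem_AA, mem_AA]
  constructor
  · rintro ⟨h1, h2, h3⟩
    exact ⟨h2, h1, fun x hx y hy hxy => (h3 x hx y hy hxy).trans Sym2.eq_swap⟩
  · rintro ⟨h1, h2, h3⟩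
    exact ⟨h2, h1, fun x hx y hy hxy => (h3 x hx y hy hxy).trans Sym2.eq_swap⟩

/-- the near-independent sets whose edge is `e` -/
noncomputable def AE (e : Sym2 V) : Finset (Finset V) :=
  Sym2.lift ⟨fun u v => AA G u v, fun u v => AA_swap G u v⟩ e

theorem AE_mk (u v : V) : AE G s(u, v) = AA G u v := rfl

open Classical in
theorem sum_near {M : Type*} [AddCommMonoid M] (f : Finset V → M) :
    ∑ S ∈ univ.filter (fun S : Finset V => IsNear G S), f S
      = ∑ e ∈ G.edgeFinset, ∑ S ∈ AE G e, f S := by
  rw [← sum_biUnion]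
  · refine sum_congr ?_ fun _ _ => rfl
    ext S
    rw [mem_filter, mem_biUnion, isNear_iff]
    simp only [mem_univ, true_and, SimpleGraph.mem_edgeFinset]
    constructor
    · rintro ⟨e, he, h⟩
      refine ⟨e, he, ?_⟩
      induction e using Sym2.ind with
      | _ a b => exact (mem_AA G).2 (h a b rfl)
    · rintro ⟨e, he, h⟩
      refine ⟨e, he, ?_⟩
      rintro u v rfl
      exact (mem_AA G).1 h
  · intro e he e' he' hne
    induction e using Sym2.ind with
    | _ a b =>
    induction e' using Sym2.ind with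
    | _ a' b' =>
    rw [Function.onFun, disjoint_left]
    intro S hS hS'
    obtain ⟨h1, h2, h3⟩ := (mem_AA G).1 hS
    obtain ⟨h1', h2', h3'⟩ := (mem_AA G).1 hS'
    have hab : G.Adj a b := by simpa using he
    exact hne (h3' a h1 b h2 hab)

variable {G}

open Classical in
theorem sigma1_eq_sum : sigma1 G = ∑ e ∈ G.edgeFinset, (AE G e).card := by
  unfold sigma1
  rw [card_eq_sum_ones]
  convert sum_near G (fun _ => 1) using 2
  rw [card_eq_sum_ones]

open Classical in
theorem S1_eq_sum : S1 G = ∑ e ∈ G.edgeFinset, ∑ S ∈ AE G e, S.card := by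
  unfold S1
  convert sum_near G (fun S => S.card) using 2

/-- the number of members of `AA u v` containing `x` -/
noncomputable def NN (G : SimpleGraph V) (u v x : V) : ℕ := ((AA G u v).filter (fun S => x ∈ S)).card

theorem sum_card_AA (u v : V) : ∑ S ∈ AA G u v, S.card = ∑ x : V, NN G u v x := by
  unfold NN
  simp only [card_filter]
  rw [sum_comm]
  refine sum_congr rfl fun S _ => ?_
  rw [sum_boole]
  simp

theorem NN_le (u v x : V) : NN G u v x ≤ (AA G u v).card := card_filter_le _ _

theorem NN_zero {u v x : V} (h : G.Adj u x ∨ G.Adj v x) (hu : x ≠ u) (hv : x ≠ v) :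
    NN G u v x = 0 := by
  unfold NN
  rw [card_eq_zero, filter_eq_empty_iff]
  intro S hS hx
  obtain ⟨h1, h2, h3⟩ := (mem_AA G).1 hS
  rcases h with h | h
  · rcases Sym2.eq_iff.1 (h3 u h1 x hx h) with ⟨_, h4⟩ | ⟨_, h4⟩
    · exact hv h4
    · exact hu h4
  · rcases Sym2.eq_iff.1 (h3 v h2 x hx h) with ⟨_, h4⟩ | ⟨_, h4⟩
    · exact hv h4
    · exact hu h4

theorem erase_mem {u v x : V} (hu : x ≠ u) (hv : x ≠ v) {S : Finset V} (hS : S ∈ AA G u v) :
    S.erase x ∈ AA G u v := by
  obtain ⟨h1, h2, h3⟩ := (mem_AA G).1 hS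
  exact (mem_AA G).2 ⟨mem_erase.2 ⟨hu.symm, h1⟩, mem_erase.2 ⟨hv.symm, h2⟩,
    fun y hy z hz h => h3 y (mem_of_mem_erase hy) z (mem_of_mem_erase hz) h⟩

theorem NN_half {u v x : V} (hu : x ≠ u) (hv : x ≠ v) : 2 * NN G u v x ≤ (AA G u v).card := by
  have h1 : ((AA G u v).filter (fun S => x ∈ S)).card
      ≤ ((AA G u v).filter (fun S => ¬ x ∈ S)).card := by
    refine card_le_card_of_injOn (fun S => S.erase x) ?_ ?_
    · intro S hS
      rw [mem_coe, mem_filter] at hS ⊢
      exact ⟨erase_mem hu hv hS.1, notMem_erase x S⟩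
    · intro S hS T hT h
      rw [mem_coe, mem_filter] at hS hT
      have h' : S.erase x = T.erase x := h
      rw [← insert_erase hS.2, ← insert_erase hT.2, h']
  have h2 := card_filter_add_card_filter_not (s := AA G u v) (fun S => x ∈ S)
  unfold NN
  omega

theorem NN_pair {u v a b : V} (hau : a ≠ u) (hav : a ≠ v) (hbu : b ≠ u) (hbv : b ≠ v)
    (hab : G.Adj a b) : 2 * NN G u v a + NN G u v b ≤ (AA G u v).card := by
  have h1 : ((AA G u v).filter (fun S => a ∈ S)).card
      ≤ ((AA G u v).filter (fun S => ¬ a ∈ S ∧ ¬ b ∈ S)).card := by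
    refine card_le_card_of_injOn (fun S => S.erase a) ?_ ?_
    · intro S hS
      rw [mem_coe, mem_filter] at hS ⊢
      refine ⟨erase_mem hau hav hS.1, notMem_erase a S, fun hb => ?_⟩
      obtain ⟨h1, h2, h3⟩ := (mem_AA G).1 hS.1
      rcases Sym2.eq_iff.1 (h3 a hS.2 b (mem_of_mem_erase hb) hab) with ⟨h4, _⟩ | ⟨h4, _⟩
      · exact hau h4
      · exact hav h4
    · intro S hS T hT h
      rw [mem_coe, mem_filter] at hS hT
      have h' : S.erase a = T.erase a := h
      rw [← insert_erase hS.2, ← insert_erase hT.2, h']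
  have h2 := card_filter_add_card_filter_not (s := AA G u v) (fun S => a ∈ S)
  have h3 := card_filter_add_card_filter_not (s := (AA G u v).filter (fun S => ¬ a ∈ S))
    (fun S => b ∈ S)
  rw [filter_filter, filter_filter] at h3
  have h4 : ((AA G u v).filter (fun S => ¬ a ∈ S ∧ b ∈ S)) = (AA G u v).filter (fun S => b ∈ S) := by
    ext S
    rw [mem_filter, mem_filter]
    constructor
    · rintro ⟨h, _, hb⟩; exact ⟨h, hb⟩
    · rintro ⟨h, hb⟩
      refine ⟨h, fun ha => ?_, hb⟩
      obtain ⟨h1, h2, h3⟩ := (mem_AA G).1 h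
      rcases Sym2.eq_iff.1 (h3 a ha b hb hab) with ⟨h4, _⟩ | ⟨h4, _⟩
      · exact hau h4
      · exact hav h4
  rw [h4] at h3
  unfold NN
  omega

end near

section bound

variable {V : Type*} [DecidableEq V] [Fintype V] {G : SimpleGraph V}

open Classical in
/-- `N(u) ∪ N(v)` -/
noncomputable def BB (G : SimpleGraph V) (u v : V) : Finset V :=
  univ.filter (fun x => G.Adj u x ∨ G.Adj v x)

theorem mem_BB {u v x : V} : x ∈ BB G u v ↔ G.Adj u x ∨ G.Adj v x := by
  unfold BB; simp

/-- the edges outside of `N(u) ∪ N(v)` exist if there are only three vertices in it -/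
def Good (G : SimpleGraph V) (u v : V) : Prop :=
  4 ≤ (BB G u v).card ∨ ((BB G u v).card = 3 ∧ ∃ a b, G.Adj a b ∧ a ∉ BB G u v ∧ b ∉ BB G u v)

theorem bound_AA {u v : V} (huv : G.Adj u v) (hg : Good G u v) :
    6 * ∑ S ∈ AA G u v, S.card ≤ (3 * Fintype.card V + 1) * (AA G u v).card := by
  rw [sum_card_AA]
  set A := (AA G u v).card with hA
  have hne : u ≠ v := G.ne_of_adj huv
  have huB : u ∈ BB G u v := mem_BB.2 (Or.inr huv.symm)
  have hvB : v ∈ BB G u v := mem_BB.2 (Or.inl huv)
  rcases hg with h4 | ⟨h3, a, b, hab, haB, hbB⟩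
  · have hx : ∀ x : V, 2 * NN G u v x ≤ (if x ∈ BB G u v then 0 else A) +
        ((if x = u then 2 * A else 0) + (if x = v then 2 * A else 0)) := by
      intro x
      by_cases hxu : x = u
      · have := NN_le (G := G) u v x
        simp only [hxu, if_true]
        rw [hxu] at this
        omega
      by_cases hxv : x = v
      · have := NN_le (G := G) u v x
        simp only [hxv, if_true]
        rw [hxv] at this
        omega
      by_cases hxB : x ∈ BB G u v
      · have := NN_zero (mem_BB.1 hxB) hxu hxv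
        rw [this]; simp
      · have := NN_half (G := G) hxu hxv
        simp only [hxB, hxu, hxv, if_false]
        omega
    have hs := sum_le_sum (s := univ) fun x _ => hx x
    rw [← mul_sum, sum_add_distrib, sum_add_distrib, sum_ite_eq', sum_ite_eq'] at hs
    simp only [mem_univ, if_true] at hs
    have h5 : ∑ x : V, (if x ∈ BB G u v then 0 else A) = (Fintype.card V - (BB G u v).card) * A := by
      rw [sum_ite, sum_const_zero, zero_add, sum_const, smul_eq_mul]
      congr 1
      rw [← card_compl]
      congr 1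
      ext x
      simp
    rw [h5] at hs
    have h6 : (BB G u v).card ≤ Fintype.card V := card_le_univ _
    have h7 : (Fintype.card V - (BB G u v).card) * A + 4 * A ≤ Fintype.card V * A := by
      rw [← add_mul]
      exact Nat.mul_le_mul_right _ (by omega)
    have h8 : (3 * Fintype.card V + 1) * A = 3 * (Fintype.card V * A) + A := by ring
    rw [h8]
    omega
  · have hau : a ≠ u := fun h => haB (h ▸ huB)
    have hav : a ≠ v := fun h => haB (h ▸ hvB)
    have hbu : b ≠ u := fun h => hbB (h ▸ huB)
    have hbv : b ≠ v := fun h => hbB (h ▸ hvB)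
    have hne2 : a ≠ b := G.ne_of_adj hab
    set C := insert a (insert b (BB G u v)) with hC
    have hCc : C.card = 5 := by
      rw [hC, card_insert_of_notMem, card_insert_of_notMem hbB, h3]
      rw [mem_insert]; push Not; exact ⟨hne2, haB⟩
    have hx : ∀ x : V, 2 * NN G u v x ≤ (if x ∈ C then 0 else A) +
        ((if x = u then 2 * A else 0) + ((if x = v then 2 * A else 0) +
        ((if x = a then 2 * NN G u v a else 0) + (if x = b then 2 * NN G u v b else 0)))) := by
      intro x
      by_cases hxu : x = u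
      · have := NN_le (G := G) u v x
        simp only [hxu, if_true]
        rw [hxu] at this
        omega
      by_cases hxv : x = v
      · have := NN_le (G := G) u v x
        simp only [hxv, if_true]
        rw [hxv] at this
        omega
      by_cases hxa : x = a
      · simp only [hxa, if_true]
        omega
      by_cases hxb : x = b
      · simp only [hxb, if_true]
        omega
      by_cases hxB : x ∈ BB G u v
      · have := NN_zero (mem_BB.1 hxB) hxu hxv
        rw [this]; simp
      · have := NN_half (G := G) hxu hxv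
        have hxC : x ∉ C := by
          rw [hC, mem_insert, mem_insert]; push Not; exact ⟨hxa, hxb, hxB⟩
        simp only [hxC, hxu, hxv, hxa, hxb, if_false]
        omega
    have hs := sum_le_sum (s := univ) fun x _ => hx x
    rw [← mul_sum, sum_add_distrib, sum_add_distrib, sum_add_distrib, sum_add_distrib, sum_ite_eq',
      sum_ite_eq', sum_ite_eq', sum_ite_eq'] at hs
    simp only [mem_univ, if_true] at hs
    have h5 : ∑ x : V, (if x ∈ C then 0 else A) = (Fintype.card V - C.card) * A := by
      rw [sum_ite, sum_const_zero, zero_add, sum_const, smul_eq_mul]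
      congr 1
      rw [← card_compl]
      congr 1
      ext x
      simp
    rw [h5] at hs
    have h6 : C.card ≤ Fintype.card V := card_le_univ _
    have h7 : (Fintype.card V - C.card) * A + 5 * A = Fintype.card V * A := by
      rw [← add_mul]
      congr 1
      omega
    have h8 : (3 * Fintype.card V + 1) * A = 3 * (Fintype.card V * A) + A := by ring
    have h9 := NN_pair hau hav hbu hbv hab
    have h10 := NN_pair hbu hbv hau hav hab.symm
    rw [h8]
    omega

/-- the general bound -/
theorem bound_all (h : ∀ u v, G.Adj u v → Good G u v) :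
    6 * S1 G ≤ (3 * Fintype.card V + 1) * sigma1 G := by
  classical
  rw [S1_eq_sum, sigma1_eq_sum, mul_sum, mul_sum]
  refine sum_le_sum fun e he => ?_
  induction e using Sym2.ind with
  | _ u v =>
  have huv : G.Adj u v := by simpa using he
  exact bound_AA huv (h u v huv)

end bound

end Pool.Agent.R838.NI
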