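import Pool.Agent.R838.NI.Spider

/-!
The maximum of `av1` over the trees with `n` vertices.
-/

namespace Pool.Agent.R838.NI

open Finset

theorem check4 : check (test 12 5) 3 (List.replicate 4 (⟨1, 0, 0, 0⟩, ⟨1, 1, 0, 0⟩)) = true := by
  decide +kernel

theorem check5 : check (test 24 9) 4 (List.replicate 5 (⟨1, 0, 0, 0⟩, ⟨1, 1, 0, 0⟩)) = true := by
  decide +kernel

theorem check6 : check (test 45 15) 5 (List.replicate 6 (⟨1, 0, 0, 0⟩, ⟨1, 1, 0, 0⟩)) = true := by
  decide +kernel

theorem check7 : check (test 86 25) 6 (List.replicate 7 (⟨1, 0, 0, 0⟩, ⟨1, 1, 0, 0⟩)) = true := by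
  decide +kernel

theorem check8 : check (test 171 43) 7 (List.replicate 8 (⟨1, 0, 0, 0⟩, ⟨1, 1, 0, 0⟩)) = true := by
  decide +kernel

theorem check9 : check (test 352 77) 8 (List.replicate 9 (⟨1, 0, 0, 0⟩, ⟨1, 1, 0, 0⟩)) = true := by
  decide +kernel

theorem av_le_of (a b c d : ℕ) (hd : 0 < d) (h : d * a ≤ c * b) : (a : ℚ) / b ≤ (c : ℚ) / d := by
  rcases Nat.eq_zero_or_pos b with hb | hb
  · rw [hb]
    simp only [Nat.cast_zero, div_zero]
    positivity
  · rw [div_le_div_iff₀ (by exact_mod_cast hb) (by exact_mod_cast hd)]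
    have : a * d ≤ c * b := by rw [mul_comm]; exact h
    exact_mod_cast this

theorem num_bound (k : ℕ) (hk : 6 ≤ k) : 6 * k ^ 2 + 5 * k ≤ 4 * 2 ^ k + 3 := by
  induction k, hk using Nat.le_induction with
  | base => norm_num
  | succ k hk ih =>
    have h1 : 6 * (k + 1) ^ 2 + 5 * (k + 1) + 3 ≤ 2 * (6 * k ^ 2 + 5 * k) := by nlinarith
    have h2 : 4 * 2 ^ (k + 1) = 2 * (4 * 2 ^ k) := by ring
    omega

/-- the bound for trees not isomorphic to `R_n` -/
theorem good_or {V : Type} [Fintype V] {G : SimpleGraph V} (hG : G.IsTree)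
    (k : ℕ) (hc : Fintype.card V = k + 4) :
    (∃ e, TO G (k + 4) e (pR (k + 4))) ∨ ∀ u v, G.Adj u v → Good G u v := by
  classical
  by_contra hcon
  push Not at hcon
  obtain ⟨hno, u, v, huv, hbad⟩ := hcon
  have hne : u ≠ v := G.ne_of_adj huv
  unfold Good at hbad
  push Not at hbad
  obtain ⟨hb4, hb3⟩ := hbad
  have huB : u ∈ BB G u v := mem_BB.2 (Or.inr huv.symm)
  have hvB : v ∈ BB G u v := mem_BB.2 (Or.inl huv)
  have hsub : ({u, v} : Finset V) ⊆ BB G u v := by
    intro x hx
    rcases mem_insert.1 hx with rfl | hx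
    · exact huB
    · rw [mem_singleton] at hx; rw [hx]; exact hvB
  have hc2 : ({u, v} : Finset V).card = 2 := card_pair hne
  -- a vertex outside
  obtain ⟨z, hz⟩ : ∃ z, z ∉ ({u, v} : Finset V) := by
    by_contra h
    push Not at h
    have : (univ : Finset V) ⊆ {u, v} := fun x _ => h x
    have := card_le_card this
    rw [card_univ, hc2, hc] at this
    omega
  obtain ⟨pw⟩ := hG.connected.preconnected u z
  obtain ⟨d, -, hd1, hd2⟩ := pw.exists_boundary_dart (({u, v} : Finset V) : Set V)
    (by simp) (by simpa using hz)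
  set w := d.snd with hwdef
  have hdadj : G.Adj d.fst w := d.adj
  have hwu : w ≠ u := by
    rintro h; apply hd2; rw [h]; simp
  have hwv : w ≠ v := by
    rintro h; apply hd2; rw [h]; simp
  have hwB : w ∈ BB G u v := by
    rw [mem_BB]
    have : d.fst = u ∨ d.fst = v := by simpa using hd1
    rcases this with h | h
    · left; rw [← h]; exact hdadj
    · right; rw [← h]; exact hdadj
  have hsub3 : ({u, v, w} : Finset V) ⊆ BB G u v := by
    intro x hx
    simp only [mem_insert, mem_singleton] at hx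
    rcases hx with rfl | rfl | rfl
    · exact huB
    · exact hvB
    · exact hwB
  have hc3 : ({u, v, w} : Finset V).card = 3 := by
    rw [card_insert_of_notMem, card_insert_of_notMem, card_singleton]
    · simpa using hwv.symm
    · simp [hne, hwu.symm]
  have h3le := card_le_card hsub3
  have hB3 : (BB G u v).card = 3 := by omega
  have hBeq : ({u, v, w} : Finset V) = BB G u v :=
    eq_of_subset_of_card_le hsub3 (by omega)
  have hE := hb3 hB3
  have hB' : ∀ x, G.Adj u x ∨ G.Adj v x → x = u ∨ x = v ∨ x = w := by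
    intro x hx
    have : x ∈ ({u, v, w} : Finset V) := by rw [hBeq]; exact mem_BB.2 hx
    simpa using this
  have hE' : ∀ a b, G.Adj a b → (a = u ∨ a = v ∨ a = w) ∨ (b = u ∨ b = v ∨ b = w) := by
    intro a b hab
    by_cases ha : a ∈ BB G u v
    · left; rw [← hBeq] at ha; simpa using ha
    · right
      have := hE a b hab ha
      rw [← hBeq] at this; simpa using this
  rcases mem_BB.1 hwB with h | h
  · exact absurd (exists_TO_R hG k hc huv.symm h hwv.symm
      (fun x hx => by rcases hB' x hx.symm with h | h | h <;> simp [h])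
      (fun a b hab => by
        rcases hE' a b hab with h | h
        · left; rcases h with h | h | h <;> simp [h]
        · right; rcases h with h | h | h <;> simp [h])) (by
          intro h; exact (not_exists.2 hno) h)
  · exact absurd (exists_TO_R hG k hc huv h hwu.symm hB' hE') (by
          intro h; exact (not_exists.2 hno) h)

theorem av1_R (k : ℕ) : av1 (R (k + 4)) =
    (((k + 5) * 2 ^ k + 5 * k + 7 : ℕ) : ℚ) / ((2 ^ (k + 1) + 2 * k + 3 : ℕ) : ℚ) := by
  unfold av1
  rw [(TO_R k).S1_R, (TO_R k).sigma1_R]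

theorem av1_le {V : Type} [Fintype V] (G : SimpleGraph V) (hG : G.IsTree)
    (k : ℕ) (hc : Fintype.card V = k + 4) : av1 G ≤ av1 (R (k + 4)) := by
  classical
  rw [av1_R]
  unfold av1
  refine av_le_of _ _ _ _ (by positivity) ?_
  rcases Nat.lt_or_ge k 6 with hk | hk
  · interval_cases k
    · exact of_check 3 12 5 check4 V G hG hc
    · exact of_check 4 24 9 check5 V G hG hc
    · exact of_check 5 45 15 check6 V G hG hc
    · exact of_check 6 86 25 check7 V G hG hc
    · exact of_check 7 171 43 check8 V G hG hc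
    · exact of_check 8 352 77 check9 V G hG hc
  · rcases good_or hG k hc with ⟨e, he⟩ | hgood
    · rw [he.S1_R, he.sigma1_R]
      exact le_of_eq (mul_comm _ _)
    · have h1 := bound_all hgood
      rw [hc] at h1
      have h2 := num_bound k hk
      have h3 : (3 * (k + 4) + 1) * (2 ^ (k + 1) + 2 * k + 3)
          ≤ 6 * ((k + 5) * 2 ^ k + 5 * k + 7) := by
        have : (3 * (k + 4) + 1) * (2 ^ (k + 1) + 2 * k + 3)
          = (6 * k + 26) * 2 ^ k + (6 * k ^ 2 + 5 * k) + 30 * k + 39 := by ring
        rw [this]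
        have : 6 * ((k + 5) * 2 ^ k + 5 * k + 7) = (6 * k + 26) * 2 ^ k + (4 * 2 ^ k + 3)
          + 30 * k + 39 := by ring
        rw [this]
        omega
      -- combine
      have h4 : 6 * ((2 ^ (k + 1) + 2 * k + 3) * S1 G)
          ≤ 6 * (((k + 5) * 2 ^ k + 5 * k + 7) * sigma1 G) := by
        calc 6 * ((2 ^ (k + 1) + 2 * k + 3) * S1 G)
            = (2 ^ (k + 1) + 2 * k + 3) * (6 * S1 G) := by ring
          _ ≤ (2 ^ (k + 1) + 2 * k + 3) * ((3 * (k + 4) + 1) * sigma1 G) :=
              Nat.mul_le_mul_left _ h1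
          _ = ((3 * (k + 4) + 1) * (2 ^ (k + 1) + 2 * k + 3)) * sigma1 G := by ring
          _ ≤ (6 * ((k + 5) * 2 ^ k + 5 * k + 7)) * sigma1 G := Nat.mul_le_mul_right _ h3
          _ = _ := by ring
      omega

end Pool.Agent.R838.NI
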