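import Pool.Agent.R838.NI.Basic

/-!
A weighted sum over all vertex subsets of a tree given by a parent function, computed by removing
the last vertex; the numbers `sigma1` and `S1` are read off from it.
-/

namespace Pool.Agent.R838.NI

open Finset

section PS

variable {A : Type*} [CommSemiring A]

/-- weighted sum over the subsets of `{0, ..., n-1}`; every edge inside the set gives a factor `y` -/
def P (n : ℕ) (p : ℕ → ℕ) (y : A) (α β : ℕ → A) : A :=
  ∑ S ∈ (range n).powerset, (∏ i ∈ range n, if i ∈ S then β i else α i) *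
    ∏ j ∈ range n, if 0 < j ∧ j ∈ S ∧ p j ∈ S then y else 1

theorem P_one (p : ℕ → ℕ) (y : A) (α β : ℕ → A) : P 1 p y α β = α 0 + β 0 := by
  unfold P
  have h : range 1 = insert 0 ∅ := by decide
  rw [h, sum_powerset_insert (by simp)]
  simp

theorem P_congr (n : ℕ) (p q : ℕ → ℕ) (y : A) (α β α' β' : ℕ → A)
    (hp : ∀ j < n, 0 < j → p j = q j) (hα : ∀ i < n, α i = α' i) (hβ : ∀ i < n, β i = β' i) :
    P n p y α β = P n q y α' β' := by
  unfold P
  refine sum_congr rfl fun S _ => ?_
  congr 1
  · refine prod_congr rfl fun i hi => ?_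
    rw [hα i (mem_range.1 hi), hβ i (mem_range.1 hi)]
  · refine prod_congr rfl fun j hj => ?_
    by_cases h0 : 0 < j
    · rw [hp j (mem_range.1 hj) h0]
    · simp [h0]

theorem P_succ (n : ℕ) (hn : 0 < n) (p : ℕ → ℕ) (hp : ∀ j ≤ n, 0 < j → p j < j) (y : A)
    (α β : ℕ → A) :
    P (n + 1) p y α β = P n p y (Function.update α (p n) (α (p n) * (α n + β n)))
      (Function.update β (p n) (β (p n) * (α n + y * β n))) := by
  unfold P
  rw [Finset.range_add_one, sum_powerset_insert Finset.notMem_range_self, ← sum_add_distrib]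
  refine sum_congr rfl fun S hS => ?_
  have hSn : ∀ i ∈ S, i < n := fun i hi => mem_range.1 (mem_powerset.1 hS hi)
  have hnS : n ∉ S := fun h => lt_irrefl _ (hSn n h)
  have hpn : p n < n := hp n le_rfl hn
  rw [prod_insert Finset.notMem_range_self, prod_insert Finset.notMem_range_self,
    prod_insert Finset.notMem_range_self, prod_insert Finset.notMem_range_self]
  have e1 : ∏ i ∈ range n, (if i ∈ insert n S then β i else α i)
      = ∏ i ∈ range n, (if i ∈ S then β i else α i) := by
    refine prod_congr rfl fun i hi => ?_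
    have : i ≠ n := (mem_range.1 hi).ne
    simp [this]
  have e2 : ∏ j ∈ range n, (if 0 < j ∧ j ∈ insert n S ∧ p j ∈ insert n S then y else 1)
      = ∏ j ∈ range n, (if 0 < j ∧ j ∈ S ∧ p j ∈ S then y else 1) := by
    refine prod_congr rfl fun j hj => ?_
    have h1 : j ≠ n := (mem_range.1 hj).ne
    by_cases h0 : 0 < j
    · have h2 : p j ≠ n := by
        have := hp j (mem_range.1 hj).le h0
        have := mem_range.1 hj
        omega
      simp [h1, h2]
    · simp [h0]
  rw [e1, e2]
  set X := ∏ i ∈ range n, (if i ∈ S then β i else α i) with hX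
  set Y := ∏ j ∈ range n, (if 0 < j ∧ j ∈ S ∧ p j ∈ S then y else 1) with hY
  have e3 : ∏ i ∈ range n, (if i ∈ S then Function.update β (p n) (β (p n) * (α n + y * β n)) i
      else Function.update α (p n) (α (p n) * (α n + β n)) i)
      = X * (if p n ∈ S then α n + y * β n else α n + β n) := by
    have : ∀ i ∈ range n, (if i ∈ S then Function.update β (p n) (β (p n) * (α n + y * β n)) i
      else Function.update α (p n) (α (p n) * (α n + β n)) i)
      = (if i ∈ S then β i else α i) *
        (if i = p n then (if p n ∈ S then α n + y * β n else α n + β n) else 1) := by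
      intro i hi
      by_cases h : i = p n
      · subst h
        by_cases h2 : p n ∈ S <;> simp [h2]
      · simp [h]
    rw [prod_congr rfl this, prod_mul_distrib, prod_ite_eq']
    simp [hX, hpn]
  rw [e3]
  by_cases h : p n ∈ S
  · simp only [hnS, if_false, mem_insert, hpn.ne, false_or, h, if_true, true_or, and_true, hn,
      and_false, one_mul, false_and]
    ring
  · simp only [hnS, if_false, mem_insert, hpn.ne, false_or, h, if_true, true_or, and_true, hn,
      and_false, one_mul, false_and]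
    ring

end PS

/-- `a + b ε + c y + d ε y` with `ε ^ 2 = y ^ 2 = 0` -/
@[ext] structure D4 where
  /-- coefficient of `1` -/
  a : ℕ
  /-- coefficient of `ε` -/
  b : ℕ
  /-- coefficient of `y` -/
  c : ℕ
  /-- coefficient of `ε y` -/
  d : ℕ

namespace D4

/-- addition -/
def add (s t : D4) : D4 := ⟨Nat.add s.a t.a, Nat.add s.b t.b, Nat.add s.c t.c, Nat.add s.d t.d⟩

/-- multiplication -/
def mul (s t : D4) : D4 :=
  ⟨Nat.mul s.a t.a, Nat.add (Nat.mul s.a t.b) (Nat.mul s.b t.a),
    Nat.add (Nat.mul s.a t.c) (Nat.mul s.c t.a),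
    Nat.add (Nat.add (Nat.mul s.a t.d) (Nat.mul s.d t.a))
      (Nat.add (Nat.mul s.b t.c) (Nat.mul s.c t.b))⟩

instance : Add D4 := ⟨add⟩
instance : Mul D4 := ⟨mul⟩
instance : Zero D4 := ⟨⟨0, 0, 0, 0⟩⟩
instance : One D4 := ⟨⟨1, 0, 0, 0⟩⟩

@[simp] theorem add_a (s t : D4) : (s + t).a = s.a + t.a := rfl
@[simp] theorem add_b (s t : D4) : (s + t).b = s.b + t.b := rfl
@[simp] theorem add_c (s t : D4) : (s + t).c = s.c + t.c := rfl
@[simp] theorem add_d (s t : D4) : (s + t).d = s.d + t.d := rfl
@[simp] theorem mul_a (s t : D4) : (s * t).a = s.a * t.a := rfl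
@[simp] theorem mul_b (s t : D4) : (s * t).b = s.a * t.b + s.b * t.a := rfl
@[simp] theorem mul_c (s t : D4) : (s * t).c = s.a * t.c + s.c * t.a := rfl
@[simp] theorem mul_d (s t : D4) :
    (s * t).d = s.a * t.d + s.d * t.a + (s.b * t.c + s.c * t.b) := rfl
@[simp] theorem zero_a : (0 : D4).a = 0 := rfl
@[simp] theorem zero_b : (0 : D4).b = 0 := rfl
@[simp] theorem zero_c : (0 : D4).c = 0 := rfl
@[simp] theorem zero_d : (0 : D4).d = 0 := rfl
@[simp] theorem one_a : (1 : D4).a = 1 := rfl
@[simp] theorem one_b : (1 : D4).b = 0 := rfl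
@[simp] theorem one_c : (1 : D4).c = 0 := rfl
@[simp] theorem one_d : (1 : D4).d = 0 := rfl

instance : CommSemiring D4 where
  add_assoc s t u := by ext <;> simp <;> ring
  zero_add s := by ext <;> simp
  add_zero s := by ext <;> simp
  add_comm s t := by ext <;> simp <;> ring
  left_distrib s t u := by ext <;> simp <;> ring
  right_distrib s t u := by ext <;> simp <;> ring
  zero_mul s := by ext <;> simp
  mul_zero s := by ext <;> simp
  mul_assoc s t u := by ext <;> simp <;> ring
  one_mul s := by ext <;> simp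
  mul_one s := by ext <;> simp
  mul_comm s t := by ext <;> simp <;> ring
  nsmul := nsmulRec

/-- the coefficient of `y` as an additive map -/
def cHom : D4 →+ ℕ where
  toFun := D4.c
  map_zero' := rfl
  map_add' _ _ := rfl

/-- the coefficient of `ε y` as an additive map -/
def dHom : D4 →+ ℕ where
  toFun := D4.d
  map_zero' := rfl
  map_add' _ _ := rfl

/-- `1 + ε` -/
def x : D4 := ⟨1, 1, 0, 0⟩

/-- `y` -/
def y : D4 := ⟨0, 0, 1, 0⟩

theorem x_pow (k : ℕ) : x ^ k = ⟨1, k, 0, 0⟩ := by
  induction k with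
  | zero => rfl
  | succ k ih => rw [pow_succ, ih]; ext <;> simp [x]; omega

theorem y_pow_succ_succ (k : ℕ) : y ^ (k + 2) = 0 := by
  have h : y ^ 2 = 0 := by rw [sq]; rfl
  rw [pow_add, h, mul_zero]

theorem xy_c (k e : ℕ) : (x ^ k * y ^ e).c = if e = 1 then 1 else 0 := by
  rw [x_pow]
  match e with
  | 0 => simp
  | 1 => simp [y]
  | e + 2 => rw [y_pow_succ_succ]; simp

theorem xy_d (k e : ℕ) : (x ^ k * y ^ e).d = if e = 1 then k else 0 := by
  rw [x_pow]
  match e with
  | 0 => simp
  | 1 => simp [y]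
  | e + 2 => rw [y_pow_succ_succ]; simp

end D4

section link

variable {V : Type*} {G : SimpleGraph V} {n : ℕ} {v : ℕ → V} {p : ℕ → ℕ}

theorem TO.near_iff [DecidableEq V] (h : TO G n v p) (S : Finset ℕ) (hS : S ⊆ range n) :
    IsNear G (S.image v) ↔
      ((range n).filter (fun j => 0 < j ∧ j ∈ S ∧ p j ∈ S)).card = 1 := by
  have key : (Sym2.map Subtype.val) '' (G.induce ((S.image v : Finset V) : Set V)).edgeSet
      = (fun j => s(v j, v (p j))) ''
        (((range n).filter (fun j => 0 < j ∧ j ∈ S ∧ p j ∈ S) : Finset ℕ) : Set ℕ) := by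
    ext e
    constructor
    · rintro ⟨e', he', rfl⟩
      induction e' using Sym2.ind with
      | _ a b =>
      obtain ⟨a, ha⟩ := a
      obtain ⟨b, hb⟩ := b
      rw [SimpleGraph.mem_edgeSet, SimpleGraph.comap_adj] at he'
      simp only [Function.Embedding.subtype_apply] at he'
      obtain ⟨i, hi, rfl⟩ := mem_image.1 (mem_coe.1 ha)
      obtain ⟨j, hj, rfl⟩ := mem_image.1 (mem_coe.1 hb)
      have hin := mem_range.1 (hS hi)
      have hjn := mem_range.1 (hS hj)
      rcases lt_trichotomy i j with hij | hij | hij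
      · have hp := (h.adj i j hij hjn).1 he'
        refine ⟨j, ?_, ?_⟩
        · simp only [coe_filter, Set.mem_setOf_eq, mem_range]
          exact ⟨hjn, by omega, hj, by rw [hp]; exact hi⟩
        · simp only [Sym2.map_mk, Prod.map_apply, hp]
          exact Sym2.eq_swap
      · subst hij
        exact absurd he' (G.irrefl)
      · have hp := (h.adj j i hij hin).1 he'.symm
        refine ⟨i, ?_, ?_⟩
        · simp only [coe_filter, Set.mem_setOf_eq, mem_range]
          exact ⟨hin, by omega, hi, by rw [hp]; exact hj⟩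
        · simp only [Sym2.map_mk, Prod.map_apply, hp]
    · rintro ⟨j, hj, rfl⟩
      simp only [coe_filter, Set.mem_setOf_eq, mem_range] at hj
      obtain ⟨hjn, h0, hjS, hpS⟩ := hj
      have hadj := (h.adj (p j) j (h.lt j hjn h0) hjn).2 rfl
      refine ⟨s(⟨v j, ?_⟩, ⟨v (p j), ?_⟩), ?_, ?_⟩
      · exact mem_coe.2 (mem_image_of_mem v hjS)
      · exact mem_coe.2 (mem_image_of_mem v hpS)
      · rw [SimpleGraph.mem_edgeSet, SimpleGraph.comap_adj]
        exact hadj.symm
      · simp
  have h1 : ((Sym2.map Subtype.val) '' (G.induce ((S.image v : Finset V) : Set V)).edgeSet).ncard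
      = (G.induce ((S.image v : Finset V) : Set V)).edgeSet.ncard :=
    Set.ncard_image_of_injective _ (Sym2.map.injective Subtype.val_injective)
  have h2 : ((fun j => s(v j, v (p j))) ''
        (((range n).filter (fun j => 0 < j ∧ j ∈ S ∧ p j ∈ S) : Finset ℕ) : Set ℕ)).ncard
      = ((range n).filter (fun j => 0 < j ∧ j ∈ S ∧ p j ∈ S)).card := by
    rw [Set.ncard_image_of_injOn, Set.ncard_coe_finset]
    intro j hj k hk hjk
    simp only [coe_filter, Set.mem_setOf_eq, mem_range] at hj hk
    have hpj := h.lt j hj.1 hj.2.1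
    have hpk := h.lt k hk.1 hk.2.1
    rcases Sym2.eq_iff.1 hjk with ⟨e1, _⟩ | ⟨e1, e2⟩
    · exact h.inj j hj.1 k hk.1 e1
    · have a1 := h.inj j hj.1 (p k) (by omega) e1
      have a2 := h.inj (p j) (by omega) k hk.1 e2
      omega
  unfold IsNear
  rw [← h1, key, h2]

theorem TO.sum_eq [Fintype V] [DecidableEq V] (h : TO G n v p) {M : Type*} [AddCommMonoid M]
    (f : Finset V → M) :
    ∑ T : Finset V, f T = ∑ S ∈ (range n).powerset, f (S.image v) := by
  symm
  refine sum_bij (fun S _ => S.image v) (fun S _ => mem_univ _) ?_ ?_ (fun S _ => rfl)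
  · intro S hS S' hS' he
    have key : ∀ (S : Finset ℕ), S ⊆ range n → ∀ (S' : Finset ℕ), S' ⊆ range n →
        S.image v = S'.image v → S ⊆ S' := by
      intro S hS S' hS' he i hi
      have : v i ∈ S'.image v := he ▸ mem_image_of_mem v hi
      obtain ⟨j, hj, hji⟩ := mem_image.1 this
      have := h.inj j (mem_range.1 (hS' hj)) i (mem_range.1 (hS hi)) hji
      exact this ▸ hj
    exact Subset.antisymm (key S (mem_powerset.1 hS) S' (mem_powerset.1 hS') he)
      (key S' (mem_powerset.1 hS') S (mem_powerset.1 hS) he.symm)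
  · intro T _
    refine ⟨(range n).filter (fun i => v i ∈ T), mem_powerset.2 (filter_subset _ _), ?_⟩
    ext z
    rw [mem_image]
    constructor
    · rintro ⟨i, hi, rfl⟩
      exact (mem_filter.1 hi).2
    · intro hz
      obtain ⟨i, hi, rfl⟩ := h.surj z
      exact ⟨i, mem_filter.2 ⟨mem_range.2 hi, hz⟩, rfl⟩

theorem TO.P_eq (_ : TO G n v p) :
    P n p D4.y (fun _ => 1) (fun _ => D4.x) = ∑ S ∈ (range n).powerset,
      D4.x ^ S.card * D4.y ^ ((range n).filter (fun j => 0 < j ∧ j ∈ S ∧ p j ∈ S)).card := by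
  unfold P
  refine sum_congr rfl fun S hS => ?_
  congr 1
  · rw [prod_ite, prod_const_one, mul_one, prod_const]
    congr 2
    ext i
    simp only [mem_filter, mem_range]
    exact ⟨fun hi => hi.2, fun hi => ⟨mem_range.1 (mem_powerset.1 hS hi), hi⟩⟩
  · rw [prod_ite, prod_const_one, mul_one, prod_const]

theorem TO.card_image (h : TO G n v p) [DecidableEq V] (S : Finset ℕ) (hS : S ⊆ range n) :
    (S.image v).card = S.card := by
  refine card_image_of_injOn ?_
  intro i hi j hj hij
  exact h.inj i (mem_range.1 (hS hi)) j (mem_range.1 (hS hj)) hij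

theorem TO.sigma1_eq [Fintype V] (h : TO G n v p) :
    sigma1 G = (P n p D4.y (fun _ => 1) (fun _ => D4.x)).c := by
  classical
  rw [h.P_eq]
  change _ = D4.cHom _
  rw [map_sum]
  unfold sigma1
  rw [card_filter, h.sum_eq]
  refine sum_congr rfl fun S hS => ?_
  change _ = (D4.x ^ _ * D4.y ^ _).c
  rw [D4.xy_c]
  simp only [h.near_iff S (mem_powerset.1 hS)]

theorem TO.S1_eq [Fintype V] (h : TO G n v p) :
    S1 G = (P n p D4.y (fun _ => 1) (fun _ => D4.x)).d := by
  classical
  rw [h.P_eq]
  change _ = D4.dHom _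
  rw [map_sum]
  unfold S1
  rw [sum_filter, h.sum_eq]
  refine sum_congr rfl fun S hS => ?_
  change _ = (D4.x ^ _ * D4.y ^ _).d
  rw [D4.xy_d]
  simp only [h.near_iff S (mem_powerset.1 hS), h.card_image S (mem_powerset.1 hS)]

end link

end Pool.Agent.R838.NI
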