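import Pool.Agent.R838.NI.Check
import Pool.Agent.R838.NI.Gen

/-!
The trees `R_n`: exact formulas, and the characterisation used in the general bound.
-/

namespace Pool.Agent.R838.NI

open Finset

/-- the parent function of `R_n` -/
def pR (n : ℕ) (j : ℕ) : ℕ := if j + 1 = n then 1 else 0

theorem P_star (m : ℕ) : ∀ (α β : ℕ → D4) (p : ℕ → ℕ), (∀ j < m + 2, 0 < j → p j = 0) →
    (∀ i, 2 ≤ i → α i = 1) → (∀ i, 2 ≤ i → β i = D4.x) →
    P (m + 2) p D4.y α β = α 0 * (1 + D4.x) ^ m * (α 1 + β 1)
      + β 0 * (1 + D4.y * D4.x) ^ m * (α 1 + D4.y * β 1) := by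
  induction m with
  | zero =>
    intro α β p hp hα hβ
    have h1 : p 1 = 0 := hp 1 (by omega) (by omega)
    rw [P_succ 1 (by omega) p (fun j hj h0 => by
      have : j = 1 := by omega
      rw [this, h1]; omega), P_one, h1]
    simp only [Function.update_self, pow_zero, mul_one]
  | succ m ih =>
    intro α β p hp hα hβ
    have h1 : p (m + 2) = 0 := hp (m + 2) (by omega) (by omega)
    rw [P_succ (m + 2) (by omega) p (fun j hj h0 => by rw [hp j (by omega) h0]; exact h0), h1,
      ih _ _ p (fun j hj h0 => hp j (by omega) h0)]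
    · simp only [Function.update_self]
      rw [Function.update_of_ne (by omega), Function.update_of_ne (by omega), hα (m + 2) (by omega),
        hβ (m + 2) (by omega), pow_succ, pow_succ]
      ring
    · intro i hi
      rw [Function.update_of_ne (by omega), hα i hi]
    · intro i hi
      rw [Function.update_of_ne (by omega), hβ i hi]

theorem pow_one_add_x (k : ℕ) : (1 + D4.x) ^ (k + 1) = ⟨2 ^ (k + 1), (k + 1) * 2 ^ k, 0, 0⟩ := by
  induction k with
  | zero => rfl
  | succ k ih =>
    rw [pow_succ, ih]
    ext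
    · simp [D4.x]; ring
    · simp [D4.x]; ring
    · simp [D4.x]
    · simp [D4.x]

theorem pow_one_add_yx (k : ℕ) : (1 + D4.y * D4.x) ^ k = ⟨1, 0, k, k⟩ := by
  induction k with
  | zero => rfl
  | succ k ih =>
    rw [pow_succ, ih]
    ext
    · simp [D4.x, D4.y]
    · simp [D4.x, D4.y]
    · simp [D4.x, D4.y]; omega
    · simp [D4.x, D4.y]; omega

theorem P_R (k : ℕ) : P (k + 4) (pR (k + 4)) D4.y (fun _ => 1) (fun _ => D4.x)
    = (⟨2 ^ (k + 1), (k + 1) * 2 ^ k, 0, 0⟩ : D4) * ⟨3, 2, 1, 2⟩
      + ⟨1, 1, 0, 0⟩ * ⟨1, 0, k + 1, k + 1⟩ * ⟨2, 1, 1, 1⟩ := by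
  have h1 : pR (k + 4) (k + 3) = 1 := by unfold pR; simp
  rw [P_succ (k + 3) (by omega) _ (fun j hj h0 => by
    unfold pR; split_ifs <;> omega), h1,
    P_star (k + 1) _ _ _ (fun j hj h0 => by unfold pR; rw [if_neg]; omega)]
  · rw [pow_one_add_x, pow_one_add_yx]
    simp only [Function.update_self, Function.update_of_ne (show (0 : ℕ) ≠ 1 by omega)]
    rw [one_mul, one_mul]
    rfl
  · intro i hi
    rw [Function.update_of_ne (by omega)]
  · intro i hi
    rw [Function.update_of_ne (by omega)]

theorem P_R_c (k : ℕ) : (P (k + 4) (pR (k + 4)) D4.y (fun _ => 1) (fun _ => D4.x)).c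
    = 2 ^ (k + 1) + 2 * k + 3 := by
  rw [P_R]; simp; ring

theorem P_R_d (k : ℕ) : (P (k + 4) (pR (k + 4)) D4.y (fun _ => 1) (fun _ => D4.x)).d
    = (k + 5) * 2 ^ k + 5 * k + 7 := by
  rw [P_R]; simp; ring

theorem TO.S1_R {V : Type*} [Fintype V] {G : SimpleGraph V} {k : ℕ} {v : ℕ → V}
    (h : TO G (k + 4) v (pR (k + 4))) : S1 G = (k + 5) * 2 ^ k + 5 * k + 7 := by
  rw [h.S1_eq, P_R_d]

theorem TO.sigma1_R {V : Type*} [Fintype V] {G : SimpleGraph V} {k : ℕ} {v : ℕ → V}
    (h : TO G (k + 4) v (pR (k + 4))) : sigma1 G = 2 ^ (k + 1) + 2 * k + 3 := by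
  rw [h.sigma1_eq, P_R_c]

theorem TO_R (k : ℕ) : TO (R (k + 4)) (k + 4)
    (fun i => if h : i < k + 4 then (⟨i, h⟩ : Fin (k + 4)) else ⟨0, by omega⟩) (pR (k + 4)) := by
  refine ⟨?_, ?_, ?_, ?_⟩
  · intro i hi j hj hij
    simp only [hi, hj, dif_pos] at hij
    exact congrArg Fin.val hij
  · intro x
    exact ⟨x.1, x.2, by simp⟩
  · intro i hi h0
    unfold pR
    split_ifs <;> omega
  · intro i j hij hj
    have hi : i < k + 4 := by omega
    simp only [hi, hj, dif_pos]
    unfold R pR
    rw [SimpleGraph.fromRel_adj]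
    simp only [ne_eq, Fin.mk.injEq]
    split_ifs <;> omega

/-- a graph with such an enumeration is a tree -/
theorem TO.isTree {V : Type*} {G : SimpleGraph V} {n : ℕ} {v : ℕ → V} {p : ℕ → ℕ}
    (h : TO G (n + 1) v p) : G.IsTree := by
  classical
  have hfin : Finite V := by
    refine Finite.of_surjective (fun i : Fin (n + 1) => v i) ?_
    intro x
    obtain ⟨i, hi, rfl⟩ := h.surj x
    exact ⟨⟨i, hi⟩, rfl⟩
  have hbij : Function.Bijective (fun i : Fin (n + 1) => v i) := by
    refine ⟨?_, ?_⟩
    · intro i j hij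
      exact Fin.ext (h.inj i i.2 j j.2 hij)
    · intro x
      obtain ⟨i, hi, rfl⟩ := h.surj x
      exact ⟨⟨i, hi⟩, rfl⟩
  have hcard : Nat.card V = n + 1 := by
    rw [← Nat.card_congr (Equiv.ofBijective _ hbij)]
    simp
  rw [SimpleGraph.isTree_iff_connected_and_card]
  have hreach : ∀ i < n + 1, G.Reachable (v 0) (v i) := by
    intro i
    induction i using Nat.strong_induction_on with
    | _ i ih =>
      intro hi
      by_cases h0 : i = 0
      · subst h0; exact SimpleGraph.Reachable.refl _
      · have hp := h.lt i hi (by omega)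
        exact (ih (p i) hp (by omega)).trans
          ((h.adj (p i) i hp hi).2 rfl).reachable
  refine ⟨?_, ?_⟩
  · haveI : Nonempty V := ⟨v 0⟩
    refine ⟨fun x y => ?_⟩
    obtain ⟨i, hi, rfl⟩ := h.surj x
    obtain ⟨j, hj, rfl⟩ := h.surj y
    exact (hreach i hi).symm.trans (hreach j hj)
  · rw [hcard]
    have key : G.edgeSet = (fun j => s(v j, v (p j))) '' (Finset.Ioo 0 (n + 1) : Set ℕ) := by
      ext e
      induction e using Sym2.ind with
      | _ a b =>
      obtain ⟨i, hi, rfl⟩ := h.surj a
      obtain ⟨j, hj, rfl⟩ := h.surj b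
      rw [SimpleGraph.mem_edgeSet]
      constructor
      · intro hij
        rcases lt_trichotomy i j with hlt | hlt | hlt
        · have := (h.adj i j hlt hj).1 hij
          refine ⟨j, ?_, ?_⟩
          · simp only [coe_Ioo, Set.mem_Ioo]; omega
          · simp only [this]; exact Sym2.eq_swap
        · subst hlt; exact absurd hij G.irrefl
        · have := (h.adj j i hlt hi).1 hij.symm
          refine ⟨i, ?_, ?_⟩
          · simp only [coe_Ioo, Set.mem_Ioo]; omega
          · simp only [this]
      · rintro ⟨l, hl, hle⟩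
        simp only [coe_Ioo, Set.mem_Ioo] at hl
        have hp := h.lt l hl.2 hl.1
        have hadj := (h.adj (p l) l hp hl.2).2 rfl
        have hle' : s(v l, v (p l)) = s(v i, v j) := hle
        rw [← SimpleGraph.mem_edgeSet, ← hle', SimpleGraph.mem_edgeSet]
        exact hadj.symm
    rw [Nat.card_coe_set_eq, key, Set.InjOn.ncard_image, Set.ncard_coe_finset, Nat.card_Ioo]
    · omega
    · intro j hj l hl hjl
      simp only [coe_Ioo, Set.mem_Ioo] at hj hl
      have hpj := h.lt j hj.2 hj.1
      have hpl := h.lt l hl.2 hl.1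
      rcases Sym2.eq_iff.1 hjl with ⟨e1, _⟩ | ⟨e1, e2⟩
      · exact h.inj j hj.2 l hl.2 e1
      · have a1 := h.inj j hj.2 (p l) (by omega) e1
        have a2 := h.inj (p j) (by omega) l hl.2 e2
        omega

/-- The structure of the trees with an extremal edge. -/
theorem exists_TO_R {V : Type} [Fintype V] [DecidableEq V] {G : SimpleGraph V} (hG : G.IsTree)
    (k : ℕ) (hc : Fintype.card V = k + 4) {u v w : V} (huv : G.Adj u v) (hvw : G.Adj v w)
    (huw : u ≠ w) (hB : ∀ x, G.Adj u x ∨ G.Adj v x → x = u ∨ x = v ∨ x = w)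
    (hE : ∀ a b, G.Adj a b → (a = u ∨ a = v ∨ a = w) ∨ (b = u ∨ b = v ∨ b = w)) :
    ∃ e, TO G (k + 4) e (pR (k + 4)) := by
  have hne1 : u ≠ v := G.ne_of_adj huv
  have hne2 : v ≠ w := G.ne_of_adj hvw
  have htri : ¬ G.Adj u w := by
    intro h
    have := hG.isAcyclic.cliqueFree (n := 3) le_rfl {u, v, w}
    exact this (SimpleGraph.is3Clique_triple_iff.2 ⟨huv, h, hvw⟩)
  haveI : Nontrivial V := Fintype.one_lt_card_iff_nontrivial.1 (by omega)
  have hw : ∀ x, x ≠ u → x ≠ v → x ≠ w → G.Adj w x := by
    intro x h1 h2 h3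
    obtain ⟨y, hy⟩ := hG.connected.preconnected.exists_adj_of_nontrivial x
    rcases hE x y hy with h | h
    · rcases h with h | h | h
      · exact absurd h h1
      · exact absurd h h2
      · exact absurd h h3
    · rcases h with rfl | rfl | rfl
      · rcases hB x (Or.inl hy.symm) with h | h | h
        · exact absurd h h1
        · exact absurd h h2
        · exact absurd h h3
      · rcases hB x (Or.inr hy.symm) with h | h | h
        · exact absurd h h1
        · exact absurd h h2
        · exact absurd h h3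
      · exact hy.symm
  have hcC : Fintype.card {x : V // x ∉ ({u, v, w} : Finset V)} = k + 1 := by
    rw [Fintype.card_subtype_compl]
    have : Fintype.card {x : V // x ∈ ({u, v, w} : Finset V)} = 3 := by
      rw [Fintype.card_coe, card_insert_of_notMem, card_insert_of_notMem, card_singleton]
      · simpa using hne2
      · simp [hne1, huw]
    rw [this, hc]
    omega
  let e := (Fintype.equivFinOfCardEq hcC).symm
  have hmem : ∀ x : {x : V // x ∉ ({u, v, w} : Finset V)}, (x : V) ≠ u ∧ (x : V) ≠ v ∧
      (x : V) ≠ w := by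
    intro x
    have := x.2
    simp only [mem_insert, mem_singleton, not_or] at this
    exact this
  let f : ℕ → V := fun i => if i = 0 then w else if i = 1 then v else
    if h : i - 2 < k + 1 then (e ⟨i - 2, h⟩ : V) else u
  have f0 : f 0 = w := by simp [f]
  have f1 : f 1 = v := by simp [f]
  have f2 : ∀ i (h2 : 2 ≤ i) (h3 : i < k + 3), f i = e ⟨i - 2, by omega⟩ := by
    intro i h2 h3
    have h4 : i - 2 < k + 1 := by omega
    simp only [f]
    rw [if_neg (by omega), if_neg (by omega), dif_pos h4]
  have f3 : f (k + 3) = u := by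
    simp only [f]
    rw [if_neg (by omega), if_neg (by omega), dif_neg (by omega)]
  have f2' : ∀ i (h2 : 2 ≤ i) (h3 : i < k + 3), f i ≠ u ∧ f i ≠ v ∧ f i ≠ w := by
    intro i h2 h3
    rw [f2 i h2 h3]
    exact hmem _
  refine ⟨f, ?_, ?_, ?_, ?_⟩
  · have key : ∀ i j, i < j → j < k + 4 → f i ≠ f j := by
      intro i j hij hj
      by_cases hj3 : j = k + 3
      · subst hj3
        rw [f3]
        by_cases hi0 : i = 0
        · subst hi0; rw [f0]; exact huw.symm
        by_cases hi1 : i = 1
        · subst hi1; rw [f1]; exact hne1.symm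
        · exact (f2' i (by omega) (by omega)).1
      by_cases hj1 : j = 1
      · subst hj1
        have : i = 0 := by omega
        subst this
        rw [f0, f1]; exact hne2.symm
      by_cases hi0 : i = 0
      · subst hi0; rw [f0]; exact (f2' j (by omega) (by omega)).2.2.symm
      by_cases hi1 : i = 1
      · subst hi1; rw [f1]; exact (f2' j (by omega) (by omega)).2.1.symm
      · rw [f2 i (by omega) (by omega), f2 j (by omega) (by omega)]
        intro h
        have := e.injective (Subtype.ext h)
        rw [Fin.mk.injEq] at this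
        omega
    intro i hi j hj hij
    rcases lt_trichotomy i j with h | h | h
    · exact absurd hij (key i j h hj)
    · exact h
    · exact absurd hij.symm (key j i h hi)
  · intro x
    by_cases h1 : x = u
    · exact ⟨k + 3, by omega, by rw [f3, h1]⟩
    by_cases h2 : x = v
    · exact ⟨1, by omega, by rw [f1, h2]⟩
    by_cases h3 : x = w
    · exact ⟨0, by omega, by rw [f0, h3]⟩
    have hx : x ∉ ({u, v, w} : Finset V) := by simp [h1, h2, h3]
    refine ⟨(e.symm ⟨x, hx⟩).1 + 2, by have := (e.symm ⟨x, hx⟩).2; omega, ?_⟩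
    rw [f2 _ (by omega) (by have := (e.symm ⟨x, hx⟩).2; omega)]
    have : (⟨(e.symm ⟨x, hx⟩).1 + 2 - 2, by have := (e.symm ⟨x, hx⟩).2; omega⟩ : Fin (k + 1))
        = e.symm ⟨x, hx⟩ := Fin.ext (by simp)
    rw [this, Equiv.apply_symm_apply]
  · intro i hi h0
    unfold pR
    split_ifs <;> omega
  · intro i j hij hj
    by_cases hj3 : j = k + 3
    · subst hj3
      have hp : pR (k + 4) (k + 3) = 1 := by unfold pR; simp
      rw [hp, f3]
      by_cases hi0 : i = 0
      · subst hi0
        rw [f0]
        exact ⟨fun h => absurd h.symm htri, fun h => by omega⟩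
      by_cases hi1 : i = 1
      · subst hi1; rw [f1]
        exact ⟨fun _ => rfl, fun _ => huv.symm⟩
      · refine ⟨fun h => ?_, fun h => by omega⟩
        have h2 := f2' i (by omega) (by omega)
        rcases hB _ (Or.inl h.symm) with h | h | h
        · exact absurd h h2.1
        · exact absurd h h2.2.1
        · exact absurd h h2.2.2
    have hp : pR (k + 4) j = 0 := by
      unfold pR
      rw [if_neg]
      omega
    rw [hp]
    by_cases hj1 : j = 1
    · subst hj1
      have : i = 0 := by omega
      subst this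
      rw [f0, f1]
      exact ⟨fun _ => rfl, fun _ => hvw.symm⟩
    have hj2 := f2' j (by omega) (by omega)
    by_cases hi0 : i = 0
    · subst hi0
      rw [f0]
      exact ⟨fun _ => rfl, fun _ => hw _ hj2.1 hj2.2.1 hj2.2.2⟩
    · refine ⟨fun h => ?_, fun h => by omega⟩
      by_cases hi1 : i = 1
      · subst hi1
        rw [f1] at h
        rcases hB _ (Or.inr h) with h | h | h
        · exact absurd h hj2.1
        · exact absurd h hj2.2.1
        · exact absurd h hj2.2.2
      · have hi2 := f2' i (by omega) (by omega)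
        rcases hE _ _ h with h | h
        · rcases h with h | h | h
          · exact absurd h hi2.1
          · exact absurd h hi2.2.1
          · exact absurd h hi2.2.2
        · rcases h with h | h | h
          · exact absurd h hj2.1
          · exact absurd h hj2.2.1
          · exact absurd h hj2.2.2

end Pool.Agent.R838.NI
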